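import Pool.Agent.Helper43.SF.Stmts

set_option autoImplicit false

namespace Pool.Agent.Helper43.SF

open Finset Polynomial

theorem st_ALG : ST_ALG := by
  classical
  intro d a ha hinf
  by_contra hcon
  push Not at hcon
  obtain ⟨s0, hs0, hs0n⟩ := hcon
  have hne : ((Finset.Icc 2 d).filter (fun s => a s ≠ 0)).Nonempty := ⟨s0, Finset.mem_filter.2 ⟨hs0, hs0n⟩⟩
  obtain ⟨S, hS, hmax⟩ := Finset.exists_max_image _ (fun s => s) hne
  rw [Finset.mem_filter, Finset.mem_Icc] at hS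
  obtain ⟨⟨hS2, hSd⟩, hSn⟩ := hS
  have hSodd : ¬ Even S := fun he => hSn (ha S (Finset.mem_Icc.2 ⟨by omega, hSd⟩) he)
  have hS3 : 3 ≤ S := by
    rcases Nat.lt_or_ge S 3 with h | h
    · exfalso; apply hSodd; have : S = 2 := by omega
      rw [this]; decide
    · exact h
  have hlarge : ∀ s, S < s → s ≤ d → a s = 0 := by
    intro s h1 h2
    by_contra h3
    have := hmax s (Finset.mem_filter.2 ⟨Finset.mem_Icc.2 ⟨by omega, h2⟩, h3⟩)
    omega
  have hS1 : a (S - 1) = 0 := by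
    apply ha (S - 1) (Finset.mem_Icc.2 ⟨by omega, by omega⟩)
    rw [Nat.not_even_iff_odd] at hSodd
    obtain ⟨r, hr⟩ := hSodd
    exact ⟨r, by omega⟩
  apply hSn
  apply Polynomial.eq_zero_of_infinite_isRoot
  have hinf2 : ({k : ℕ | ∀ t ∈ Finset.Icc 1 d, ∑ s ∈ Finset.Icc t d,
      (a s).eval (k : ℝ) * ((k - 1 - t).choose (s - t) : ℝ) = (a t).eval (k : ℝ)} \ {k : ℕ | k ≤ S}).Infinite :=
    hinf.sdiff (Set.finite_le_nat S)
  have hinf3 := hinf2.image (f := fun k : ℕ => (k : ℝ)) (Nat.cast_injective.injOn)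
  refine hinf3.mono ?_
  rintro x ⟨k, ⟨hk1, hk2⟩, rfl⟩
  have hk2' : S < k := by
    by_contra h
    exact hk2 (not_lt.1 h)
  change (a S).eval (k : ℝ) = 0
  have h1 := hk1 (S - 1) (Finset.mem_Icc.2 ⟨by omega, by omega⟩)
  rw [hS1, eval_zero] at h1
  have h2 : ∑ s ∈ Finset.Icc (S - 1) d, (a s).eval (k : ℝ) * ((k - 1 - (S - 1)).choose (s - (S - 1)) : ℝ) =
      (a S).eval (k : ℝ) * ((k - 1 - (S - 1)).choose (S - (S - 1)) : ℝ) := by
    apply Finset.sum_eq_single S
    · intro s hs hne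
      rw [Finset.mem_Icc] at hs
      rcases lt_trichotomy s S with h | h | h
      · have : s = S - 1 := by omega
        rw [this, hS1, eval_zero, zero_mul]
      · exact absurd h hne
      · rw [hlarge s h hs.2, eval_zero, zero_mul]
    · intro h
      exfalso; apply h
      rw [Finset.mem_Icc]; omega
  rw [h2] at h1
  have h3 : S - (S - 1) = 1 := by omega
  rw [h3, Nat.choose_one_right] at h1
  have h4 : ((k - 1 - (S - 1) : ℕ) : ℝ) ≠ 0 := by
    have : k - 1 - (S - 1) ≠ 0 := by omega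
    exact_mod_cast this
  rcases mul_eq_zero.1 h1 with h5 | h5
  · exact h5
  · exact absurd h5 h4

end Pool.Agent.Helper43.SF
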