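import Pool.Agent.Helper43.SF.Stmts

set_option autoImplicit false

namespace Pool.Agent.Helper43.SF

open Finset Polynomial

theorem st_BP : ST_BP := by
  intro j t
  refine ⟨C (1 / (j.factorial : ℝ)) * (descPochhammer ℝ j).comp (Polynomial.X - C ((t : ℝ) + 1)), ?_, ?_⟩
  · refine (natDegree_C_mul_le _ _).trans ?_
    rw [natDegree_comp, descPochhammer_natDegree, natDegree_X_sub_C, mul_one]
  · intro k hk
    have h1 : ((k : ℝ) - ((t : ℝ) + 1)) = ((k - 1 - t : ℕ) : ℝ) := by
      have : k = (k - 1 - t) + (t + 1) := by omega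
      have h2 : (k : ℝ) = ((k - 1 - t : ℕ) : ℝ) + ((t : ℝ) + 1) := by
        exact_mod_cast congrArg (Nat.cast : ℕ → ℝ) this
      rw [h2]; ring
    rw [eval_mul, eval_C, eval_comp, eval_sub, eval_X, eval_C, h1, descPochhammer_eval_eq_descFactorial,
      Nat.descFactorial_eq_factorial_mul_choose]
    have h3 : (j.factorial : ℝ) ≠ 0 := by exact_mod_cast (Nat.factorial_pos j).ne'
    push_cast
    field_simp

end Pool.Agent.Helper43.SF
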