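import Pool.Agent.Helper43.SF.Stmts

set_option autoImplicit false

namespace Pool.Agent.Helper43.SF

open Finset Polynomial
open Pool.Agent.Helper43.OD (h)

theorem st_GRO : ST_GRO := by
  intro s hs
  refine ⟨10 + |zt s|, ?_⟩
  intro N hN
  have hN1 : (1 : ℝ) ≤ (N : ℝ) := by exact_mod_cast hN
  have hz : 0 ≤ |zt s| := abs_nonneg _
  have hNs : (1 : ℝ) ≤ (N : ℝ) ^ s := one_le_pow₀ hN1
  have e1 : (N : ℝ) ^ (s + 1) = (N : ℝ) ^ s * N := pow_succ _ _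
  have h0 : 0 ≤ (N : ℝ) ^ s := by positivity
  have hle : (N : ℝ) ^ s ≤ (N : ℝ) ^ (s + 1) := by
    rw [e1]; exact le_mul_of_one_le_right h0 hN1
  have hle1 : (1 : ℝ) ≤ (N : ℝ) ^ (s + 1) := hNs.trans hle
  have a1 : 0 ≤ h N s := Pool.Agent.Helper43.OD.h_nonneg _ _
  have a2 : h N s ≤ N := Pool.Agent.Helper43.OD.h_le _ _
  have a3 : 0 ≤ h (2 * N) s := Pool.Agent.Helper43.OD.h_nonneg _ _
  have a4 : h (2 * N) s ≤ 2 * N := by
    have := Pool.Agent.Helper43.OD.h_le (2 * N) s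
    push_cast at this; exact this
  have b2 : (N : ℝ) ^ s * h N s ≤ (N : ℝ) ^ (s + 1) := by
    rw [e1]; exact mul_le_mul_of_nonneg_left a2 h0
  have b1 : 0 ≤ (N : ℝ) ^ s * h N s := mul_nonneg h0 a1
  have b4 : (N : ℝ) ^ s * h (2 * N) s ≤ 2 * (N : ℝ) ^ (s + 1) := by
    rw [e1]
    have := mul_le_mul_of_nonneg_left a4 h0
    linarith
  have b3 : 0 ≤ (N : ℝ) ^ s * h (2 * N) s := mul_nonneg h0 a3
  constructor
  · unfold F
    split_ifs with c1 c2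
    · subst c1
      rw [pow_one] at b1 b2 b3 b4
      have c3 : (1 : ℝ) / 2 * (N : ℝ) * (2 * h N 1 - h (2 * N) 1) =
        (N : ℝ) * h N 1 - 1 / 2 * ((N : ℝ) * h (2 * N) 1) := by ring
      rw [c3, abs_le]
      have c4 : 0 ≤ |zt 1| * (N : ℝ) ^ (1 + 1) := by positivity
      constructor <;> nlinarith
    · have c3 : (1 : ℝ) / 2 * (N : ℝ) ^ s * h (2 * N) s = 1 / 2 * ((N : ℝ) ^ s * h (2 * N) s) := by ring
      rw [c3, abs_le]
      have c4 : 0 ≤ |zt s| * (N : ℝ) ^ (s + 1) := by positivity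
      constructor <;> nlinarith
    · have c3 : (N : ℝ) ^ s * zt s - 1 / 2 * (N : ℝ) ^ s * h (2 * N) s =
        zt s * (N : ℝ) ^ s - 1 / 2 * ((N : ℝ) ^ s * h (2 * N) s) := by ring
      have c4 : |zt s * (N : ℝ) ^ s| ≤ |zt s| * (N : ℝ) ^ (s + 1) := by
        rw [abs_mul, abs_of_nonneg h0]
        exact mul_le_mul_of_nonneg_left hle hz
      have c5 := abs_le.1 c4
      rw [c3, abs_le]
      constructor <;> nlinarith [c5.1, c5.2]
  · unfold G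
    have c3 : (1 : ℝ) / 2 * (N : ℝ) ^ s * (2 * h N s - h (2 * N) s) - 1 / 2 * (1 - (1 / 2) ^ s) =
        (N : ℝ) ^ s * h N s - 1 / 2 * ((N : ℝ) ^ s * h (2 * N) s) - 1 / 2 + 1 / 2 * (1 / 2) ^ s := by ring
    have c4 : 0 ≤ |zt s| * (N : ℝ) ^ (s + 1) := by positivity
    have c5 : ((1 : ℝ) / 2) ^ s ≤ 1 := pow_le_one₀ (by norm_num) (by norm_num)
    have c6 : (0 : ℝ) ≤ (1 / 2) ^ s := by positivity
    rw [c3, abs_le]
    constructor <;> nlinarith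

end Pool.Agent.Helper43.SF
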